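import Mathlib

set_option autoImplicit false

/-!
# MP_235f01_an, Q2: no Banach space with a 1-unconditional basis has the super ADP

Let `a`, `b` be finitely supported vectors with disjoint supports and `‖a + b‖ = 1`. Test the super
alternative Daugavet property at `x = a - b` on the relatively weakly open set of all `y` in the
ball whose coordinates on the supports of `a` and `b` are close to those of `z = a + b`. For such
`y = z + w` one has, up to a small error, `x + y = a + (a + w)` and `x - y = -b - (b + w)`, where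
`‖a + w‖ ≤ ‖z + w‖ ≤ 1` and `‖b + w‖ ≤ 1` by unconditionality. So
`2 ≤ 1 + max (‖a‖, ‖b‖)`: the norm of `a + b` is the maximum of the norms of `a` and `b`. Then
`x = e_i / ‖e_i‖` and the `y` with small `i`-th coordinate give `‖x ± y‖ ≤ 3 / 2`.
-/

open Filter Topology Finset

namespace Pool.Agent.Results.MP_235f01_an.UnconditionalBasis

/-- The super alternative Daugavet property: `X` is infinite-dimensional and for every `x` in the
unit sphere and every nonempty relatively weakly open subset `W` of the closed unit ball,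
`sup_{y ∈ W} max_{θ = ±1} ‖x + θ y‖ = 2`. -/
def SuperADP (X : Type*) [NormedAddCommGroup X] [NormedSpace ℝ X] : Prop :=
  ¬ FiniteDimensional ℝ X ∧
  ∀ x : X, ‖x‖ = 1 → ∀ W : Set X, W.Nonempty →
    (∃ U : Set (WeakSpace ℝ X), IsOpen U ∧
      W = {y | y ∈ Metric.closedBall (0 : X) 1 ∧ toWeakSpace ℝ X y ∈ U}) →
    sSup ((fun y => max ‖x + y‖ ‖x - y‖) '' W) = 2

/-- The basis `e` is `1`-unconditional: changing the signs of the coefficients of a finite linear
combination of basis vectors does not change its norm. -/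
def OneUnconditional {β X : Type*} [NormedAddCommGroup X] [NormedSpace ℝ X] (e : β → X) : Prop :=
  ∀ (s : Finset β) (a ε : β → ℝ), (∀ i, ε i = 1 ∨ ε i = -1) →
    ‖∑ i ∈ s, (ε i * a i) • e i‖ = ‖∑ i ∈ s, a i • e i‖

section

variable {β X : Type*} [NormedAddCommGroup X] [NormedSpace ℝ X] {L : SummationFilter β}

/-- Changing the signs of finitely many coordinates does not change the norm. -/
theorem norm_flip [L.NeBot] (b : GeneralSchauderBasis β ℝ X L) (hb : OneUnconditional b)
    (B : Finset β) (y : X) : ‖y - (2 : ℝ) • b.proj B y‖ = ‖y‖ := by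
  classical
  have h1 : Tendsto (fun F : Finset β => ‖b.proj F y - (2 : ℝ) • b.proj B (b.proj F y)‖) L.filter
      (𝓝 ‖y - (2 : ℝ) • b.proj B y‖) := by
    have hc : Continuous fun v : X => ‖v - (2 : ℝ) • b.proj B v‖ := by fun_prop
    exact (hc.tendsto y).comp (b.tendsto_proj y)
  have h2 : Tendsto (fun F : Finset β => ‖b.proj F y‖) L.filter (𝓝 ‖y‖) :=
    (continuous_norm.tendsto y).comp (b.tendsto_proj y)
  refine tendsto_nhds_unique (h1.congr fun F => ?_) h2
  rw [b.proj_comp, b.proj_apply, b.proj_apply]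
  rw [← hb F (fun i => b.coord i y) (fun i => if i ∈ B then -1 else 1)
    (fun i => by by_cases h : i ∈ B <;> simp [h])]
  congr 1
  rw [Finset.smul_sum]
  have h3 : ∑ i ∈ B ∩ F, (2 : ℝ) • (b.coord i) y • b i =
      ∑ i ∈ F, if i ∈ B then (2 : ℝ) • (b.coord i) y • b i else 0 := by
    rw [Finset.sum_ite_mem, Finset.inter_comm]
  rw [h3, ← Finset.sum_sub_distrib]
  refine Finset.sum_congr rfl fun i _ => ?_
  by_cases h : i ∈ B
  · simp only [h, if_true]
    rw [smul_smul, ← sub_smul]
    congr 1
    ring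
  · simp [h]

/-- Deleting finitely many coordinates does not increase the norm. -/
theorem norm_sub_proj_le [L.NeBot] (b : GeneralSchauderBasis β ℝ X L) (hb : OneUnconditional b)
    (B : Finset β) (y : X) : ‖y - b.proj B y‖ ≤ ‖y‖ := by
  have h1 : y - b.proj B y = (1 / 2 : ℝ) • (y + (y - (2 : ℝ) • b.proj B y)) := by
    module
  rw [h1, norm_smul]
  have h2 := norm_add_le y (y - (2 : ℝ) • b.proj B y)
  rw [norm_flip b hb] at h2
  rw [Real.norm_eq_abs, abs_of_pos (by norm_num : (0 : ℝ) < 1 / 2)]
  linarith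

/-- A finite number of coordinate conditions define a weakly open set. -/
theorem isOpen_coord (b : GeneralSchauderBasis β ℝ X L) (S : Finset β) (z : X) (η : ℝ) :
    IsOpen {v : WeakSpace ℝ X | ∀ i ∈ S, |b.coord i ((toWeakSpace ℝ X).symm v) - b.coord i z| < η} := by
  have h : {v : WeakSpace ℝ X | ∀ i ∈ S, |b.coord i ((toWeakSpace ℝ X).symm v) - b.coord i z| < η} =
      ⋂ i ∈ S, {v : WeakSpace ℝ X | |b.coord i ((toWeakSpace ℝ X).symm v) - b.coord i z| < η} := by
    ext v; simp
  rw [h]
  refine isOpen_biInter_finset fun i _ => ?_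
  have hc : Continuous fun v : WeakSpace ℝ X => b.coord i ((toWeakSpace ℝ X).symm v) :=
    WeakBilin.eval_continuous _ (b.coord i)
  exact isOpen_lt (by fun_prop) continuous_const

theorem proj_self (b : GeneralSchauderBasis β ℝ X L) (B : Finset β) (v : X) :
    b.proj B (b.proj B v) = b.proj B v := by
  classical
  rw [b.proj_comp, Finset.inter_self]

theorem proj_disj (b : GeneralSchauderBasis β ℝ X L) {A B : Finset β} (h : Disjoint A B) (v : X) :
    b.proj A (b.proj B v) = 0 := by
  classical
  rw [b.proj_comp, Finset.disjoint_iff_inter_eq_empty.1 h, b.proj_empty]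
  rfl

theorem proj_sub (b : GeneralSchauderBasis β ℝ X L) {A S : Finset β} (h : A ⊆ S) (v : X) :
    b.proj A (b.proj S v) = b.proj A v := by
  classical
  rw [b.proj_comp, Finset.inter_eq_left.2 h]

theorem norm_proj_le_of (b : GeneralSchauderBasis β ℝ X L) (S : Finset β) (w : X) (δ : ℝ)
    (hδ : ∀ i ∈ S, |b.coord i w| ≤ δ) : ‖b.proj S w‖ ≤ δ * ∑ i ∈ S, ‖b i‖ := by
  rw [b.proj_apply, Finset.mul_sum]
  refine (norm_sum_le _ _).trans (Finset.sum_le_sum fun i hi => ?_)
  rw [norm_smul, Real.norm_eq_abs]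
  exact mul_le_mul_of_nonneg_right (hδ i hi) (norm_nonneg _)

/-- The main step, normalised. -/
theorem max_norm_one [L.NeBot] (b : GeneralSchauderBasis β ℝ X L) (hb : OneUnconditional b)
    (hX : SuperADP X) (A B : Finset β) (hAB : Disjoint A B) (v : X)
    (hv : ‖b.proj A v + b.proj B v‖ = 1) :
    1 ≤ max ‖b.proj A v‖ ‖b.proj B v‖ := by
  classical
  by_contra hcon
  push Not at hcon
  set a := b.proj A v with ha
  set q := b.proj B v with hq
  set M := max ‖a‖ ‖q‖ with hM
  have haM : ‖a‖ ≤ M := le_max_left _ _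
  have hqM : ‖q‖ ≤ M := le_max_right _ _
  obtain ⟨η, hη⟩ : ∃ η : ℝ, η = (1 - M) / 4 := ⟨_, rfl⟩
  have hη0 : 0 < η := by rw [hη]; linarith
  have hBa : b.proj B a = 0 := proj_disj b hAB.symm v
  have hAq : b.proj A q = 0 := proj_disj b hAB v
  have hAa : b.proj A a = a := proj_self b A v
  have hBq : b.proj B q = q := proj_self b B v
  have hx : ‖a - q‖ = 1 := by
    rw [← hv, ← norm_flip b hb B (a + q)]
    congr 1
    rw [map_add, hBa, hBq]
    module
  set S := A ∪ B with hS
  set C := ∑ i ∈ S, ‖b i‖ with hC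
  have hC0 : 0 ≤ C := Finset.sum_nonneg fun i _ => norm_nonneg _
  obtain ⟨δ, hδ⟩ : ∃ δ : ℝ, δ = η / (C + 1) := ⟨_, rfl⟩
  have hδ0 : 0 < δ := by rw [hδ]; positivity
  have hδC : δ * C ≤ η := by
    rw [hδ, div_mul_eq_mul_div, div_le_iff₀ (by linarith)]
    nlinarith
  set U : Set (WeakSpace ℝ X) :=
    {u | ∀ i ∈ S, |b.coord i ((toWeakSpace ℝ X).symm u) - b.coord i (a + q)| < δ} with hU
  set W : Set X := {y | y ∈ Metric.closedBall (0 : X) 1 ∧ toWeakSpace ℝ X y ∈ U} with hW
  have hzW : a + q ∈ W := by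
    refine ⟨?_, ?_⟩
    · rw [mem_closedBall_zero_iff, hv]
    · rw [hU, Set.mem_ofPred_eq]
      intro i _
      rw [LinearEquiv.symm_apply_apply, sub_self, abs_zero]
      exact hδ0
  have hsup := hX.2 (a - q) hx W ⟨_, hzW⟩ ⟨U, isOpen_coord b S (a + q) δ, rfl⟩
  have hle : sSup ((fun y => max ‖a - q + y‖ ‖a - q - y‖) '' W) ≤ 1 + M + 2 * η := by
    refine csSup_le ⟨_, Set.mem_image_of_mem _ hzW⟩ ?_
    rintro _ ⟨y, ⟨hy1, hy2⟩, rfl⟩
    rw [mem_closedBall_zero_iff] at hy1
    rw [hU, Set.mem_ofPred_eq] at hy2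
    obtain ⟨w, hw⟩ : ∃ w, w = y - (a + q) := ⟨_, rfl⟩
    obtain ⟨w', hw'⟩ : ∃ w', w' = w - b.proj S w := ⟨_, rfl⟩
    have hPw : ‖b.proj S w‖ ≤ η := by
      refine (norm_proj_le_of b S w δ fun i hi => ?_).trans hδC
      have h1 := hy2 i hi
      rw [LinearEquiv.symm_apply_apply, ← map_sub, ← hw] at h1
      exact h1.le
    have hAS : A ⊆ S := Finset.subset_union_left
    have hBS : B ⊆ S := Finset.subset_union_right
    have hAw : b.proj A w' = 0 := by
      rw [hw', map_sub, proj_sub b hAS, sub_self]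
    have hBw : b.proj B w' = 0 := by
      rw [hw', map_sub, proj_sub b hBS, sub_self]
    have hzw : ‖a + q + w'‖ ≤ 1 + η := by
      have h1 : a + q + w' = y - b.proj S w := by
        rw [hw', hw]; abel
      rw [h1]
      exact (norm_sub_le _ _).trans (add_le_add hy1 hPw)
    have haw : ‖a + w'‖ ≤ 1 + η := by
      refine le_trans (le_of_eq ?_) ((norm_sub_proj_le b hb B (a + q + w')).trans hzw)
      congr 1
      rw [map_add, map_add, hBa, hBq, hBw]
      abel
    have hqw : ‖q + w'‖ ≤ 1 + η := by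
      refine le_trans (le_of_eq ?_) ((norm_sub_proj_le b hb A (a + q + w')).trans hzw)
      congr 1
      rw [map_add, map_add, hAa, hAq, hAw]
      abel
    refine max_le ?_ ?_
    · have h1 : a - q + y = a + (a + w') + b.proj S w := by
        rw [hw', hw]; abel
      rw [h1]
      have h2 := norm_add₃_le (a := a) (b := a + w') (c := b.proj S w)
      linarith
    · have h1 : a - q - y = -(q + (q + w') + b.proj S w) := by
        rw [hw', hw]; abel
      rw [h1, norm_neg]
      have h2 := norm_add₃_le (a := q) (b := q + w') (c := b.proj S w)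
      linarith
  rw [hsup] at hle
  linarith

/-- The main step: in a space with the super ADP a `1`-unconditional basis is a `c₀`-basis. -/
theorem max_norm [L.NeBot] (b : GeneralSchauderBasis β ℝ X L) (hb : OneUnconditional b)
    (hX : SuperADP X) (A B : Finset β) (hAB : Disjoint A B) (v : X) :
    ‖b.proj A v + b.proj B v‖ ≤ max ‖b.proj A v‖ ‖b.proj B v‖ := by
  rcases (norm_nonneg (b.proj A v + b.proj B v)).eq_or_lt with h | h
  · rw [← h]
    exact le_max_of_le_left (norm_nonneg _)
  set c := ‖b.proj A v + b.proj B v‖ with hc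
  have h1 := max_norm_one b hb hX A B hAB (c⁻¹ • v) (by
    rw [map_smul, map_smul, ← smul_add, norm_smul, norm_inv, ← hc, Real.norm_eq_abs,
      abs_of_pos h, inv_mul_cancel₀ h.ne'])
  rw [map_smul, map_smul, norm_smul, norm_smul, norm_inv, Real.norm_eq_abs, abs_of_pos h,
    ← mul_max_of_nonneg _ _ (by positivity)] at h1
  have h2 := mul_le_mul_of_nonneg_left h1 h.le
  rw [← mul_assoc, mul_inv_cancel₀ h.ne', one_mul, mul_one] at h2
  exact h2

/-- The same with one infinitely supported vector. -/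
theorem max_norm' [L.NeBot] (b : GeneralSchauderBasis β ℝ X L) (hb : OneUnconditional b)
    (hX : SuperADP X) (A : Finset β) (y : X) :
    ‖y‖ ≤ max ‖b.proj A y‖ ‖y - b.proj A y‖ := by
  classical
  have h1 : Tendsto (fun F : Finset β => ‖b.proj F y‖) L.filter (𝓝 ‖y‖) :=
    (continuous_norm.tendsto y).comp (b.tendsto_proj y)
  have h2 : Tendsto (fun F : Finset β =>
      max ‖b.proj A (b.proj F y)‖ ‖b.proj F y - b.proj A (b.proj F y)‖) L.filter
      (𝓝 (max ‖b.proj A y‖ ‖y - b.proj A y‖)) := by
    have hc : Continuous fun v : X => max ‖b.proj A v‖ ‖v - b.proj A v‖ := by fun_prop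
    exact (hc.tendsto y).comp (b.tendsto_proj y)
  refine le_of_tendsto_of_tendsto' h1 h2 fun F => ?_
  have h3 : b.proj A (b.proj F y) = b.proj (A ∩ F) y := b.proj_comp A F y
  have h4 : b.proj F y - b.proj A (b.proj F y) = b.proj (F \ A) y := by
    rw [h3, b.proj_apply, b.proj_apply, b.proj_apply, sub_eq_iff_eq_add, Finset.inter_comm]
    have h6 := Finset.sum_inter_add_sum_sdiff F A (fun i => b.coord i y • b i)
    rw [← h6, add_comm]
  rw [h4, h3]
  have h5 := max_norm b hb hX (A ∩ F) (F \ A) (by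
    rw [Finset.disjoint_left]
    intro i hi hi2
    exact (Finset.mem_sdiff.1 hi2).2 (Finset.mem_inter.1 hi).1) y
  refine le_trans (le_of_eq ?_) h5
  rw [← h4, ← h3]
  congr 1
  abel

end

/-- No real Banach space with a `1`-unconditional basis has the super alternative Daugavet
property. The basis may be a Schauder basis in the usual sense (`β = ℕ` and
`L = SummationFilter.conditional ℕ`), or an unconditional basis indexed by any set; completeness of
`X` is not needed. -/
theorem result {β X : Type*} [NormedAddCommGroup X] [NormedSpace ℝ X]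
    {L : SummationFilter β} [L.NeBot] (b : GeneralSchauderBasis β ℝ X L)
    (hb : OneUnconditional b) : ¬ SuperADP X := by
  classical
  intro hX
  have hne : Nonempty β := by
    by_contra hemp
    rw [not_nonempty_iff] at hemp
    apply hX.1
    have : Subsingleton X := by
      refine ⟨fun x y => ?_⟩
      have h0 : ∀ z : X, z = 0 := by
        intro z
        have h1 := b.tendsto_proj z
        have h2 : (fun F : Finset β => b.proj F z) = fun _ => 0 := by
          ext1 F
          rw [Finset.eq_empty_of_isEmpty F, b.proj_empty]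
          rfl
        rw [h2] at h1
        exact (tendsto_nhds_unique h1 tendsto_const_nhds)
      rw [h0 x, h0 y]
    infer_instance
  obtain ⟨i⟩ := hne
  have hbi : b i ≠ 0 := b.linearIndependent.ne_zero i
  have hn : 0 < ‖b i‖ := norm_pos_iff.2 hbi
  set e : X := (‖b i‖)⁻¹ • b i with he
  have he1 : ‖e‖ = 1 := by
    rw [he, norm_smul, norm_inv, norm_norm, inv_mul_cancel₀ hn.ne']
  obtain ⟨δ, hδ⟩ : ∃ δ : ℝ, δ = 1 / (2 * ‖b i‖) := ⟨_, rfl⟩
  have hδ0 : 0 < δ := by rw [hδ]; positivity
  set U : Set (WeakSpace ℝ X) :=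
    {u | ∀ j ∈ ({i} : Finset β), |b.coord j ((toWeakSpace ℝ X).symm u) - b.coord j 0| < δ} with hU
  set W : Set X := {y | y ∈ Metric.closedBall (0 : X) 1 ∧ toWeakSpace ℝ X y ∈ U} with hW
  have hzW : (0 : X) ∈ W := by
    refine ⟨?_, ?_⟩
    · simp
    · rw [hU, Set.mem_ofPred_eq]
      intro j _
      rw [LinearEquiv.symm_apply_apply, sub_self, abs_zero]
      exact hδ0
  have hsup := hX.2 e he1 W ⟨_, hzW⟩ ⟨U, isOpen_coord b {i} 0 δ, rfl⟩
  have hPe : b.proj {i} e = e := by
    rw [he, map_smul, b.proj_apply_basis_mem, if_pos (Finset.mem_singleton_self i)]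
  have key : ∀ y ∈ W, ‖e + y‖ ≤ 3 / 2 ∧ ‖e - y‖ ≤ 3 / 2 := by
    rintro y ⟨hy1, hy2⟩
    rw [mem_closedBall_zero_iff] at hy1
    have h1 := hy2 i (Finset.mem_singleton_self i)
    rw [LinearEquiv.symm_apply_apply, map_zero, sub_zero] at h1
    have hP : ‖b.proj {i} y‖ ≤ 1 / 2 := by
      refine (norm_proj_le_of b {i} y δ fun j hj => ?_).trans ?_
      · rw [Finset.mem_singleton.1 hj]; exact h1.le
      · rw [Finset.sum_singleton, hδ]
        field_simp
        rfl
    have hQ : ‖y - b.proj {i} y‖ ≤ 1 := (norm_sub_proj_le b hb {i} y).trans hy1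
    constructor
    · refine (max_norm' b hb hX {i} (e + y)).trans (max_le ?_ ?_)
      · rw [map_add, hPe]
        have := norm_add_le e (b.proj {i} y)
        linarith
      · rw [map_add, hPe, add_sub_add_left_eq_sub]
        linarith
    · refine (max_norm' b hb hX {i} (e - y)).trans (max_le ?_ ?_)
      · rw [map_sub, hPe]
        have := norm_sub_le e (b.proj {i} y)
        linarith
      · rw [map_sub, hPe]
        have h2 : e - y - (e - b.proj {i} y) = -(y - b.proj {i} y) := by abel
        rw [h2, norm_neg]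
        linarith
  have hle : sSup ((fun y => max ‖e + y‖ ‖e - y‖) '' W) ≤ 3 / 2 := by
    refine csSup_le ⟨_, Set.mem_image_of_mem _ hzW⟩ ?_
    rintro _ ⟨y, hy, rfl⟩
    exact max_le (key y hy).1 (key y hy).2
  rw [hsup] at hle
  norm_num at hle

end Pool.Agent.Results.MP_235f01_an.UnconditionalBasis
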